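import Mathlib
import Pool.Agent.Helper4.PR.Layers

/-!
# The sum of the layers, with projectors, if their ranks are nearly attained
-/

universe u v w t

open CategoryTheory TensorProduct

namespace Pool.Agent.Helper4.P2

open Pool.Agent.Helper10 Pool.Agent.Helper11.Iso SmProjVar SPre Pool.Agent.Helper34.ZP
  Pool.Agent.Helper4.PR

section Ring

open Polynomial

/-- lifting one idempotent -/
lemma lift_idem {R Q : Type*} [Ring R] [Ring Q] (π : R →+* Q) {f : R}
    (hn : IsNilpotent (f - f * f)) (hf : π f * π f = π f) :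
    ∃ g : R, (g * f) * (g * f) = g * f ∧ π (g * f) = π f := by
  obtain ⟨m, hm⟩ := hn
  have hm' : (f - f * f) ^ (m + 1) = 0 := by rw [pow_succ, hm, zero_mul]
  have h1 : (X : ℤ[X]) ^ (m + 1) ∣ 1 - (1 - X ^ (m + 1)) ^ (m + 1) := by
    have h := sub_dvd_pow_sub_pow (1 : ℤ[X]) (1 - X ^ (m + 1)) (m + 1)
    rwa [one_pow, sub_sub_cancel] at h
  have h2 : (1 - X : ℤ[X]) ^ (m + 1) ∣ (1 - X ^ (m + 1)) ^ (m + 1) := by
    refine pow_dvd_pow_of_dvd ?_ _
    have h := sub_dvd_pow_sub_pow (1 : ℤ[X]) X (m + 1)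
    rwa [one_pow] at h
  obtain ⟨s, hs⟩ := h1
  have h3 : aeval f (1 - (1 - X ^ (m + 1)) ^ (m + 1) : ℤ[X]) =
      1 - (1 - f ^ (m + 1)) ^ (m + 1) := by
    simp only [map_sub, map_pow, map_one, aeval_X]
  have h4 : aeval f ((1 - (1 - X ^ (m + 1)) ^ (m + 1)) * (1 - X ^ (m + 1)) ^ (m + 1) : ℤ[X]) = 0 := by
    have h5 : (X - X * X : ℤ[X]) ^ (m + 1) ∣
        (1 - (1 - X ^ (m + 1)) ^ (m + 1)) * (1 - X ^ (m + 1)) ^ (m + 1) := by
      have h6 : (X - X * X : ℤ[X]) = X * (1 - X) := by ring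
      rw [h6, mul_pow]
      exact mul_dvd_mul ⟨s, hs⟩ h2
    obtain ⟨r, hr⟩ := h5
    rw [hr, map_mul, map_pow, map_sub, map_mul, aeval_X, hm', zero_mul]
  have h7 : aeval f (X ^ m * s : ℤ[X]) * f = 1 - (1 - f ^ (m + 1)) ^ (m + 1) := by
    rw [← h3, hs]
    have h8 : (X ^ (m + 1) * s : ℤ[X]) = (X ^ m * s) * X := by ring
    rw [h8, map_mul (aeval f) (X ^ m * s) X, aeval_X]
  refine ⟨aeval f (X ^ m * s : ℤ[X]), ?_, ?_⟩
  · rw [h7]
    rw [map_mul, h3, map_pow, map_sub, map_pow, map_one, aeval_X] at h4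
    have h9 : (1 - (1 - f ^ (m + 1)) ^ (m + 1)) * (1 - (1 - f ^ (m + 1)) ^ (m + 1)) =
        (1 - (1 - f ^ (m + 1)) ^ (m + 1)) -
          (1 - (1 - f ^ (m + 1)) ^ (m + 1)) * (1 - f ^ (m + 1)) ^ (m + 1) := by
      rw [← mul_one_sub]
    rw [h9, h4, sub_zero]
  · have hi : IsIdempotentElem (π f) := hf
    rw [h7, map_sub, map_pow, map_sub, map_pow, map_one, hi.pow_succ_eq,
      hi.one_sub.pow_succ_eq, sub_sub_cancel]

/-- left ideals modulo an ideal with semisimple quotient, which is nil in a corner -/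
lemma corner_lift {R Q : Type*} [Ring R] [Ring Q] [IsSemisimpleRing Q] (π : R →+* Q)
    (hπ : Function.Surjective π) {p : R} (hp : p * p = p)
    (hnil : ∀ x, p * x * p = x → π x = 0 → IsNilpotent x) (L : Ideal R)
    (hL : ∀ x ∈ L, x * p = x) :
    ∃ e ∈ L, e * e = e ∧ ∀ x ∈ L, π (x - x * e) = 0 := by
  obtain ⟨c, hc, hI⟩ := IsSemisimpleRing.ideal_eq_span_idempotent (L.map π)
  have hcI : c ∈ L.map π := by
    rw [hI]
    exact Ideal.subset_span rfl
  obtain ⟨x0, hx0, hx0c⟩ := (Ideal.mem_map_iff_of_surjective π hπ).1 hcI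
  have hcp : c * π p = c := by rw [← hx0c, ← map_mul, hL x0 hx0]
  have hff : π (p * x0) * π (p * x0) = π (p * x0) := by
    rw [map_mul, hx0c, mul_assoc, ← mul_assoc c, hcp, hc.eq]
  have hn : IsNilpotent (p * x0 - p * x0 * (p * x0)) := by
    refine hnil _ ?_ (by rw [map_sub, map_mul π (p * x0), hff, sub_self])
    have h1 : x0 * p = x0 := hL x0 hx0
    calc p * (p * x0 - p * x0 * (p * x0)) * p =
        (p * p) * (x0 * p) - (p * p) * x0 * p * (x0 * p) := by noncomm_ring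
      _ = p * x0 - p * x0 * (p * x0) := by rw [hp, h1]; noncomm_ring
  obtain ⟨g, hgg, hπg⟩ := lift_idem π hn hff
  refine ⟨g * (p * x0), L.mul_mem_left _ (L.mul_mem_left _ hx0), hgg, ?_⟩
  intro x hx
  have hxI : π x ∈ L.map π := Ideal.mem_map_of_mem π hx
  rw [hI] at hxI
  obtain ⟨a, ha⟩ := Ideal.mem_span_singleton'.1 hxI
  rw [map_sub, map_mul, hπg, map_mul, hx0c, ← ha, mul_assoc a c, ← mul_assoc c, hcp, hc.eq,
    sub_self]

end Ring

section Lin

variable {F : Type*} [Field F] {V : Type*} [AddCommGroup V] [Module F V]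
  [Module.Finite F V]

/-- left ideals which factor through a projector, if the null elements of its corner are
nilpotent -/
theorem exists_idem_corner (A : Subalgebra F (Module.End F V)) (s : Module.End F V)
    (hs : s * s = 1) (hsA : ∀ x ∈ A, s * x = x * s) {p : Module.End F V} (hpA : p ∈ A)
    (hpp : p * p = p)
    (hnil : ∀ x ∈ nul s (Subalgebra.toSubmodule A) (Subalgebra.toSubmodule A),
      p * x * p = x → IsNilpotent x)
    (L : Submodule F (Module.End F V)) (hLA : ∀ x ∈ L, x ∈ A)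
    (hL : ∀ a ∈ A, ∀ x ∈ L, a * x ∈ L) (hLp : ∀ x ∈ L, x * p = x) :
    ∃ e ∈ L, e * e = e ∧
      ∀ x ∈ L, x - x * e ∈ nul s (Subalgebra.toSubmodule A) (Subalgebra.toSubmodule A) := by
  obtain ⟨Q, _, _, π, hπ, hss, -, hker⟩ := exists_ideal A s hs hsA
  let L' : Ideal A :=
    { carrier := {x | (x : Module.End F V) ∈ L}
      add_mem' := fun {a b} ha hb => by
        change ((a : Module.End F V) + (b : Module.End F V)) ∈ L
        exact add_mem ha hb
      zero_mem' := by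
        change (0 : Module.End F V) ∈ L
        exact zero_mem _
      smul_mem' := fun c x hx => by
        change (c : Module.End F V) * (x : Module.End F V) ∈ L
        exact hL _ c.2 _ hx }
  obtain ⟨e, he, hee, hx⟩ := corner_lift (π : A →+* Q) hπ (p := ⟨p, hpA⟩) (Subtype.ext hpp)
    (fun x hx hπx => by
      obtain ⟨n, hn⟩ := hnil x ((hker x).1 hπx) (congrArg Subtype.val hx)
      refine ⟨n, Subtype.ext ?_⟩
      rw [SubmonoidClass.coe_pow, hn]
      rfl) L' (fun x hx => Subtype.ext (hLp x hx))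
  refine ⟨(e : Module.End F V), he, congrArg Subtype.val hee, fun x hxL => ?_⟩
  have h3 := hx ⟨x, hLA x hxL⟩ hxL
  exact (hker _).1 h3

/-- a null element of a corner which is not nilpotent -/
theorem exists_null_idem (A : Subalgebra F (Module.End F V)) (s : Module.End F V)
    {p x : Module.End F V}
    (hx : x ∈ nul s (Subalgebra.toSubmodule A) (Subalgebra.toSubmodule A))
    (hpx : p * x = x) (hxp : x * p = x) (hx' : ¬ IsNilpotent x) :
    ∃ f ∈ nul s (Subalgebra.toSubmodule A) (Subalgebra.toSubmodule A),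
      f * f = f ∧ f ≠ 0 ∧ p * f = f ∧ f * p = f := by
  have hxA : x ∈ A := (P2_mem_nul.1 hx).1
  have hμ := minpoly.ne_zero (Algebra.IsIntegral.isIntegral (R := F) x)
  obtain ⟨h, hh, hnd⟩ := Polynomial.exists_eq_pow_rootMultiplicity_mul_and_not_dvd
    (minpoly F x) hμ (0 : F)
  set n := Polynomial.rootMultiplicity (0 : F) (minpoly F x)
  rw [Polynomial.C_0, sub_zero] at hh hnd
  have hcop : IsCoprime (Polynomial.X ^ (n + 1) : Polynomial F) h :=
    ((Polynomial.prime_X.irreducible.coprime_iff_not_dvd).2 hnd).pow_left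
  obtain ⟨u, v, huv⟩ := hcop
  have haev : ∀ p : Polynomial F, Polynomial.aeval x p ∈ A := fun p => by
    rw [Polynomial.aeval_eq_sum_range]
    exact A.sum_mem fun i _ => A.smul_mem (A.pow_mem hxA i) _
  set f := Polynomial.aeval x (u * Polynomial.X ^ (n + 1)) with hf
  have hf1 : f + Polynomial.aeval x (v * h) = 1 := by
    rw [hf, ← map_add, huv, map_one]
  have hf2 : f * Polynomial.aeval x (v * h) = 0 := by
    rw [hf, ← map_mul]
    have e1 : u * Polynomial.X ^ (n + 1) * (v * h) =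
        (u * Polynomial.X * v) * (Polynomial.X ^ n * h) := by ring
    rw [e1, ← hh, map_mul, minpoly.aeval, mul_zero]
  have hff : f * f = f := by
    have h1 : Polynomial.aeval x (v * h) = 1 - f := eq_sub_of_add_eq' hf1
    rw [h1, mul_sub, mul_one, sub_eq_zero] at hf2
    exact hf2.symm
  have hfx : f = Polynomial.aeval x (u * Polynomial.X ^ n) * x := by
    rw [hf, pow_succ, ← mul_assoc, map_mul, Polynomial.aeval_X]
  have hxf : f = x * Polynomial.aeval x (u * Polynomial.X ^ n) := by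
    have e1 : u * Polynomial.X ^ (n + 1) = Polynomial.X * (u * Polynomial.X ^ n) := by ring
    rw [hf, e1, map_mul, Polynomial.aeval_X]
  have hfN : f ∈ nul s (Subalgebra.toSubmodule A) (Subalgebra.toSubmodule A) := by
    rw [hfx]
    exact P2_mul_mem_nul (haev _) hx
  have hf0 : f ≠ 0 := by
    intro h0
    have h1 : minpoly F x ∣ u * Polynomial.X ^ (n + 1) := minpoly.dvd F x h0
    have h2 : h ∣ u * Polynomial.X ^ (n + 1) := (Dvd.intro_left _ hh.symm).trans h1
    have h3 : h ∣ 1 := by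
      rw [← huv]
      exact dvd_add h2 (dvd_mul_left _ _)
    have h4 : minpoly F x ∣ Polynomial.X ^ n := by
      rw [hh]
      have h5 := mul_dvd_mul_left (Polynomial.X ^ n : Polynomial F) h3
      rwa [mul_one] at h5
    refine hx' ⟨n, ?_⟩
    obtain ⟨w, hw⟩ := h4
    have h6 : Polynomial.aeval x (Polynomial.X ^ n : Polynomial F) = 0 := by
      rw [hw, map_mul, minpoly.aeval, zero_mul]
    rwa [map_pow, Polynomial.aeval_X] at h6
  refine ⟨f, hfN, hff, hf0, ?_, ?_⟩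
  · conv_lhs => rw [hxf, ← mul_assoc, hpx, ← hxf]
  · conv_lhs => rw [hfx, mul_assoc, hxp, ← hfx]

end Lin

variable {k : Type u} [Field k] {K : Type t} [Field K] {Ω : Type v} [Field Ω] [Algebra K Ω]
  {P : SPre.{u, v, w, t} k K Ω}

/-- the algebraic maps which factor through `p` and kill `y` -/
lemma ann_corner [CharZero Ω] {V : SmProjVar k} {y : P.H V} (hy0 : y ≠ 0)
    {p : P.H V →ₗ[Ω] P.H V} (hp : p ∈ Mor P V V) (hpp : p ∘ₗ p = p)
    (hnil : ∀ x ∈ Nul P V V, p ∘ₗ x ∘ₗ p = x → IsNilpotent (x : Module.End Ω (P.H V)))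
    (hpy : p y = y) :
    ∃ e ∈ Mor P V V, e ∘ₗ e = e ∧
      Module.finrank Ω (LinearMap.range e) < Module.finrank Ω (LinearMap.range p) ∧
      ∀ Y : SmProjVar k, ∀ T ∈ Mor P V Y, T ∘ₗ p = T → T y = 0 → T - T ∘ₗ e ∈ Nul P V Y := by
  have hnc := nul_corrAlg (P := P) V
  let R : Submodule Ω (Module.End Ω (P.H V)) :=
    LinearMap.ker (precomp p - LinearMap.id : Module.End Ω (P.H V) →ₗ[Ω] Module.End Ω (P.H V))
  let L : Submodule Ω (Module.End Ω (P.H V)) :=
    Subalgebra.toSubmodule (P.corrAlg V) ⊓ (LinearMap.ker (LinearMap.applyₗ y) ⊓ R)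
  have hL : ∀ x, x ∈ L ↔ x ∈ Mor P V V ∧ x y = 0 ∧ x ∘ₗ p = x := fun x => by
    have h1 : x ∈ R ↔ x ∘ₗ p = x := by
      rw [LinearMap.mem_ker, LinearMap.sub_apply, LinearMap.id_apply, sub_eq_zero]
      exact Iff.rfl
    rw [← h1]
    exact Iff.rfl
  obtain ⟨e, heL, hee, hLe⟩ := exists_idem_corner (P.corrAlg V) (par P V)
    (LinearMap.ext fun x => par_par x) (isCat V V).sA (p := p) hp hpp
    (by
      rw [hnc]
      exact fun x hx hpx => hnil x hx hpx) L (fun x hx => ((hL x).1 hx).1)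
    (fun a ha x hx => (hL _).2 ⟨(isCat V V).AA a ha x ((hL x).1 hx).1, by
      rw [Module.End.mul_apply, ((hL x).1 hx).2.1, map_zero], by
      change (a ∘ₗ x) ∘ₗ p = a ∘ₗ x
      rw [LinearMap.comp_assoc, ((hL x).1 hx).2.2]⟩)
    (fun x hx => ((hL x).1 hx).2.2)
  obtain ⟨heM, hey, hep⟩ := (hL e).1 heL
  refine ⟨e, heM, hee, rank_lt hep hy0 hpy hey, fun Y T hT hTp hTy => ?_⟩
  refine ⟨sub_mem hT ((isCat V Y).BA T hT e heM), fun S hS => ?_⟩
  have h1 : S ∘ₗ T ∈ L := (hL _).2 ⟨(isCat V Y).CB S hS T hT, by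
    rw [LinearMap.comp_apply, hTy, map_zero], by
    rw [LinearMap.comp_assoc, hTp]⟩
  have h2 := hLe _ h1
  rw [hnc] at h2
  have h3 := h2.2 LinearMap.id (isCat V V).idA
  rw [LinearMap.id_comp] at h3
  have h4 : S ∘ₗ (T - T ∘ₗ e) ∘ₗ par P V =
      ((S ∘ₗ T : Module.End Ω (P.H V)) - (S ∘ₗ T : Module.End Ω (P.H V)) * e) ∘ₗ par P V := by
    refine LinearMap.ext fun x => ?_
    simp only [LinearMap.comp_apply, LinearMap.sub_apply, map_sub, Module.End.mul_apply]
  rw [h4]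
  exact h3

/-- one layer, with nilpotence in the corner -/
theorem layer_corner [CharZero Ω] {V Z : SmProjVar k} {y : P.H V} {z : P.H Z}
    (hy0 : y ≠ 0) (hz : P.rad Z z)
    {p : P.H V →ₗ[Ω] P.H V} (hp : p ∈ Mor P V V) (hpp : p ∘ₗ p = p) (hpy : p y = y)
    (hnil : ∀ x ∈ Nul P V V, p ∘ₗ x ∘ₗ p = x → IsNilpotent (x : Module.End Ω (P.H V)))
    (Y : SmProjVar k) :
    Module.finrank Ω (cyc P (P.ext V Z y z) (Y.prod Y)) +
        rho P (tmap (adj p) (LinearMap.id : P.H (Y.prod Y) →ₗ[Ω] P.H (Y.prod Y))) ≤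
      Module.finrank Ω (cyc P y (Y.prod Y)) +
        (Module.finrank Ω (LinearMap.range p) - 1) * nr P (Y.prod Y) := by
  obtain ⟨e, heM, hee, hrk, hann⟩ := ann_corner (P := P) hy0 hp hpp hnil hpy
  set M : Submodule Ω (P.H V →ₗ[Ω] P.H (Y.prod Y)) :=
    (Mor P V (Y.prod Y)).map (precomp p) with hM
  have hMem : ∀ T, T ∈ M ↔ T ∈ Mor P V (Y.prod Y) ∧ T ∘ₗ p = T := by
    intro T
    constructor
    · rintro ⟨S, hS, rfl⟩
      refine ⟨(isCat V (Y.prod Y)).BA S hS p hp, ?_⟩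
      change (S ∘ₗ p) ∘ₗ p = S ∘ₗ p
      rw [LinearMap.comp_assoc, hpp]
    · rintro ⟨hT, h⟩
      exact ⟨T, hT, h⟩
  -- the classes `T (y ⊗ z)`
  have h1 : Module.finrank Ω (cyc P (P.ext V Z y z) (Y.prod Y)) ≤
      Module.finrank Ω ((M ⊓ Nul P V (Y.prod Y)).map (LinearMap.applyₗ y)) := by
    refine Submodule.finrank_mono ((G5c_cyc_le (P := P) (y := y) hz (Y.prod Y)).trans ?_)
    rintro _ ⟨T, hT, rfl⟩
    refine ⟨T ∘ₗ p, ⟨⟨T, hT.1, rfl⟩, ?_⟩, ?_⟩
    · exact Nul_comp hp hT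
    · change T (p y) = T y
      rw [hpy]
  -- the classes `T y`
  have h2 : Module.finrank Ω (M.map (LinearMap.applyₗ y)) ≤
      Module.finrank Ω (cyc P y (Y.prod Y)) := by
    refine Submodule.finrank_mono ?_
    rintro _ ⟨T, hT, rfl⟩
    exact ⟨T, ((hMem T).1 hT).1, rfl⟩
  have hadj : adj e ∈ Mor P V V := adj_mem_Mor heM
  have hadj2 : adj e ∘ₗ adj e = adj e := by rw [← adj_comp, hee]
  have h3 := rho_le (P := P) V Y hadj hadj2
  rw [finrank_range_adj, rho_adj_eq heM] at h3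
  have h4 : rdim (Nul P V (Y.prod Y)) (M ⊓ LinearMap.ker (LinearMap.applyₗ y)) ≤
      (Module.finrank Ω (LinearMap.range p) - 1) * nr P (Y.prod Y) := by
    refine (G5c_rdim_mono (S' := (Mor P V (Y.prod Y)).map (precomp e)) ?_).trans
      (h3.trans (Nat.mul_le_mul_right _ (by omega)))
    rintro T ⟨hT, hTy⟩
    obtain ⟨hT1, hT2⟩ := (hMem T).1 hT
    have h5 := hann _ T hT1 hT2 (LinearMap.mem_ker.1 hTy)
    have h6 : T = precomp e T + (T - T ∘ₗ e) := by
      rw [show precomp e T = T ∘ₗ e from rfl, add_sub_cancel]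
    rw [h6]
    exact Submodule.add_mem_sup ⟨T, hT1, rfl⟩ h5
  have h5 := count (LinearMap.applyₗ y) h4
  rw [rho_adj_eq hp, ← hM]
  omega

/-- if the rank of `p` is nearly attained, the null elements of its corner are nilpotent -/
theorem nil_corner [CharZero Ω] {V : SmProjVar k} {p : P.H V →ₗ[Ω] P.H V}
    (hp : p ∈ Mor P V V) (hpp : p ∘ₗ p = p) (hadj : adj p = p) (Y : SmProjVar k)
    (hδ : Module.finrank Ω (LinearMap.range p) * nr P (Y.prod Y) <
      rho P (tmap p (LinearMap.id : P.H (Y.prod Y) →ₗ[Ω] P.H (Y.prod Y))) + nr P (Y.prod Y)) :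
    ∀ x ∈ Nul P V V, p ∘ₗ x ∘ₗ p = x → IsNilpotent (x : Module.End Ω (P.H V)) := by
  intro x hx hpx
  by_contra hnil
  have hpx1 : p ∘ₗ x = x := by
    conv_lhs => rw [← hpx, ← LinearMap.comp_assoc, hpp, hpx]
  have hxp1 : x ∘ₗ p = x := by
    conv_lhs => rw [← hpx, LinearMap.comp_assoc, LinearMap.comp_assoc, hpp, hpx]
  have hnc := nul_corrAlg (P := P) V
  obtain ⟨f, hf, hff, hf0, hpf, hfp⟩ := exists_null_idem (P.corrAlg V) (par P V) (p := p)
    (by rw [hnc]; exact hx) hpx1 hxp1 hnil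
  rw [hnc] at hf
  have hff' : f ∘ₗ f = f := hff
  have hpf' : p ∘ₗ f = f := hpf
  have hfp' : f ∘ₗ p = f := hfp
  -- the complement of `f` in `p`
  have heM : p - f ∈ Mor P V V := sub_mem hp hf.1
  have hee : (p - f) ∘ₗ (p - f) = p - f := by
    rw [LinearMap.comp_sub, LinearMap.sub_comp, LinearMap.sub_comp, hpp, hff', hpf', hfp',
      sub_self, sub_zero]
  have hrk : Module.finrank Ω (LinearMap.range (p - f)) < Module.finrank Ω (LinearMap.range p) := by
    obtain ⟨w, hw⟩ : ∃ w, f w ≠ 0 := by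
      by_contra hcon
      push Not at hcon
      exact hf0 (LinearMap.ext hcon)
    refine rank_lt (p := p) (e := p - f) ?_ (y := f w) hw (LinearMap.congr_fun hpf' w) ?_
    · rw [LinearMap.sub_comp, hpp, hfp']
    · rw [LinearMap.sub_apply, show p (f w) = f w from LinearMap.congr_fun hpf' w,
        show f (f w) = f w from LinearMap.congr_fun hff' w, sub_self]
  have hadj1 : adj (p - f) ∈ Mor P V V := adj_mem_Mor heM
  have hadj2 : adj (p - f) ∘ₗ adj (p - f) = adj (p - f) := by rw [← adj_comp, hee]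
  have h3 := rho_le (P := P) V Y hadj1 hadj2
  rw [finrank_range_adj, rho_adj_eq heM] at h3
  have h4 : rho P (tmap p (LinearMap.id : P.H (Y.prod Y) →ₗ[Ω] P.H (Y.prod Y))) ≤
      (Module.finrank Ω (LinearMap.range p) - 1) * nr P (Y.prod Y) := by
    conv_lhs => rw [← hadj]
    rw [rho_adj_eq hp]
    refine (G5c_rdim_mono (S' := (Mor P V (Y.prod Y)).map (precomp (p - f))) ?_).trans
      (h3.trans (Nat.mul_le_mul_right _ (by omega)))
    rintro _ ⟨T, hT, rfl⟩
    have h6 : precomp p T = precomp (p - f) T + T ∘ₗ f := by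
      change T ∘ₗ p = T ∘ₗ (p - f) + T ∘ₗ f
      rw [LinearMap.comp_sub, sub_add_cancel]
    rw [h6]
    exact Submodule.add_mem_sup ⟨T, hT, rfl⟩ (comp_Nul hf hT)
  have h5 : 1 ≤ Module.finrank Ω (LinearMap.range p) := by omega
  obtain ⟨r, hr⟩ := Nat.exists_eq_add_of_le h5
  rw [hr] at h4 hδ
  rw [Nat.add_sub_cancel_left] at h4
  rw [add_mul, one_mul] at hδ
  omega

/-- (K) the sum of the layers, with projectors whose ranks are nearly attained -/
theorem layers_corner [CharZero Ω] {Z : SmProjVar k} {z : P.H Z} (hz : P.rad Z z) (hz0 : z ≠ 0)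
    {p : ∀ i, P.H (Z.selfProd i) →ₗ[Ω] P.H (Z.selfProd i)}
    (hp : ∀ i, p i ∈ Mor P (Z.selfProd i) (Z.selfProd i)) (hpp : ∀ i, p i ∘ₗ p i = p i)
    (hpz : ∀ i, p i (zpow z i) = zpow z i) (hadj : ∀ i, adj (p i) = p i) (Y : SmProjVar k) (n : ℕ)
    (hδ : ∀ i < n, Module.finrank Ω (LinearMap.range (p i)) * nr P (Y.prod Y) <
      rho P (tmap (p i) (LinearMap.id : P.H (Y.prod Y) →ₗ[Ω] P.H (Y.prod Y))) +
        nr P (Y.prod Y)) :
    nr P (Y.prod Y) + ∑ i ∈ Finset.range n,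
        rho P (tmap (p i) (LinearMap.id : P.H (Y.prod Y) →ₗ[Ω] P.H (Y.prod Y))) ≤
      hr P (Y.prod Y) + ∑ i ∈ Finset.range n,
        (Module.finrank Ω (LinearMap.range (p i)) - 1) * nr P (Y.prod Y) := by
  have main : Module.finrank Ω (cyc P (zpow z n) (Y.prod Y)) + (nr P (Y.prod Y) +
      ∑ i ∈ Finset.range n,
        rho P (tmap (p i) (LinearMap.id : P.H (Y.prod Y) →ₗ[Ω] P.H (Y.prod Y)))) ≤
      hr P (Y.prod Y) + ∑ i ∈ Finset.range n,
        (Module.finrank Ω (LinearMap.range (p i)) - 1) * nr P (Y.prod Y) := by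
    induction n with
    | zero =>
      have h := layer_zero hz (Y.prod Y)
      rw [Finset.sum_range_zero, Finset.sum_range_zero, add_zero, add_zero]
      exact h
    | succ n ih =>
      have ih := ih fun i hi => hδ i (by omega)
      have h := layer_corner (zpow_ne_zero hz0 n) hz (hp n) (hpp n) (hpz n)
        (nil_corner (hp n) (hpp n) (hadj n) Y (hδ n (by omega))) Y
      rw [hadj n] at h
      have h' : Module.finrank Ω (cyc P (zpow z (n + 1)) (Y.prod Y)) +
          rho P (tmap (p n) (LinearMap.id : P.H (Y.prod Y) →ₗ[Ω] P.H (Y.prod Y))) ≤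
          Module.finrank Ω (cyc P (zpow z n) (Y.prod Y)) +
            (Module.finrank Ω (LinearMap.range (p n)) - 1) * nr P (Y.prod Y) := h
      rw [Finset.sum_range_succ, Finset.sum_range_succ]
      omega
  exact (Nat.le_add_left _ _).trans main

end Pool.Agent.Helper4.P2
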